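import Pool.Agent.Helper211.Hof.Main

set_option autoImplicit false

namespace Pool.Agent.Results.MP_81a89f_nt.PositiveLowerDensity

/-- `A`: the intersection of all sets of integers that contain `2` and `3` and contain
`a * b - 1` whenever they contain `a` and `b` (`a = b` allowed). -/
def A : Set ℤ := ⋂₀ {S : Set ℤ | 2 ∈ S ∧ 3 ∈ S ∧ ∀ a ∈ S, ∀ b ∈ S, a * b - 1 ∈ S}

/-- `A(N) = |A ∩ {1, …, N}|`. -/
noncomputable def countA (N : ℕ) : ℕ := (A ∩ Set.Icc (1 : ℤ) N).ncard

lemma hofN_ge {n : ℕ} (h : Hof211.HofN n) : 2 ≤ n := by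
  induction h with
  | two => exact le_rfl
  | three => norm_num
  | mul _ _ hx hy =>
    have := Nat.mul_le_mul hx hy
    omega

lemma mem_A {n : ℕ} (h : Hof211.HofN n) : (n : ℤ) ∈ A := by
  intro S hS
  obtain ⟨h2, h3, hmul⟩ := hS
  induction h with
  | two => exact_mod_cast h2
  | three => exact_mod_cast h3
  | @mul x y hx hy ihx ihy =>
    have h4 : 1 ≤ x * y := by
      have := Nat.mul_le_mul (hofN_ge hx) (hofN_ge hy)
      omega
    have h5 := hmul _ ihx _ ihy
    push_cast [Nat.cast_sub h4]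
    exact h5

lemma cnt_le (N : ℕ) : Hof211.cnt N ≤ countA N := by
  classical
  unfold Hof211.cnt countA
  have h1 : ((((Finset.Icc 1 N).filter Hof211.HofN).image (fun n : ℕ => (n : ℤ)) : Finset ℤ) :
      Set ℤ) ⊆ A ∩ Set.Icc (1 : ℤ) N := by
    intro m hm
    obtain ⟨n, hn, rfl⟩ := Finset.mem_image.mp (Finset.mem_coe.mp hm)
    obtain ⟨h2, h3⟩ := Finset.mem_filter.mp hn
    rw [Finset.mem_Icc] at h2
    exact ⟨mem_A h3, by exact_mod_cast h2.1, by exact_mod_cast h2.2⟩
  have h4 := Set.ncard_le_ncard h1 ((Set.finite_Icc _ _).subset Set.inter_subset_right)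
  rw [Set.ncard_coe_finset, Finset.card_image_of_injective _ Nat.cast_injective] at h4
  exact h4

lemma countA_le (N : ℕ) : countA N ≤ N := by
  unfold countA
  have h1 := Set.ncard_le_ncard (s := A ∩ Set.Icc (1 : ℤ) N) Set.inter_subset_right
    (Set.finite_Icc _ _)
  have h2 : (Set.Icc (1 : ℤ) N).ncard = N := by
    rw [← Finset.coe_Icc, Set.ncard_coe_finset, Int.card_Icc]
    simp
  omega

/-- The set `A` generated from `2, 3` by `ab - 1` has positive lower asymptotic density. -/
theorem result :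
    0 < Filter.liminf (fun N : ℕ => (countA N : ℝ) / N) Filter.atTop ∧
      ∃ c : ℝ, 0 < c ∧ ∀ N : ℕ, 2 ≤ N → c * N ≤ (countA N : ℝ) := by
  obtain ⟨c, hc, h⟩ := Hof211.main
  have h' : ∀ N : ℕ, 2 ≤ N → c * N ≤ (countA N : ℝ) := fun N hN =>
    (h N hN).trans (by exact_mod_cast cnt_le N)
  refine ⟨lt_of_lt_of_le hc ?_, c, hc, h'⟩
  refine Filter.le_liminf_of_le ?_ ?_
  · refine Filter.IsBoundedUnder.isCoboundedUnder_ge ⟨1, ?_⟩
    rw [Filter.eventually_map]
    filter_upwards [Filter.eventually_ge_atTop 1] with N hN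
    have hN' : (0 : ℝ) < N := by exact_mod_cast hN
    rw [div_le_one hN']
    exact_mod_cast countA_le N
  · filter_upwards [Filter.eventually_ge_atTop 2] with N hN
    have hN' : (0 : ℝ) < N := by
      have : 0 < N := by omega
      exact_mod_cast this
    rw [le_div_iff₀ hN']
    exact h' N hN

end Pool.Agent.Results.MP_81a89f_nt.PositiveLowerDensity
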